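import Pool.Agent.W544.KF.Final

/-!
# Kimura finiteness descends from orbit categories and along tensor automorphisms

Let `D` be a symmetric monoidal `F`-linear category, `F` a field of characteristic `0`, with
`End(𝟙) = F`, and `M` an object which has a dual.  `KDec F M S a b` says that `M` is
Kimura finite by idempotents in the set `S` of endomorphisms: `1_M = p + q` with orthogonal
idempotents `p, q ∈ S` such that `Λ^(a+1)` of the image of `p` and `Sym^(b+1)` of the image of `q`
vanish.  (`pm f n` is the tensor power `f ⊗ ... ⊗ f` with `n + 1` factors, `sy F (-1) M n` and
`sy F 1 M n` are the antisymmetrizer and the symmetrizer of the tensor power of `M` with `n + 1`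
factors, defined by the usual recursion
`(n+2) a_(n+1) = 1 ⊗ a_n + s (n+1) (1 ⊗ a_n) (transposition) (1 ⊗ a_n)`.)

1. Suppose `D` is graded by the integers (`Grading`): every `Hom(A,B)` is the direct sum of
   subspaces `G A B j`, compatibly with composition and tensor product, the structural
   isomorphisms being of degree `0`.  We prove that `M` is Kimura finite in `D` if and only if it
   is Kimura finite in the subcategory of the morphisms of degree `0`, with the same numbers
   `a, b`.

2. Let `Γ` be a set of tensor automorphisms of `D` which are the identity on objects (`TAut`:
   additive, compatible with composition, tensor products, associativity and commutativity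
   constraints; not nec. `F`-linear) such that every endomorphism `x` of `M` has an affine
   combination of images under `Γ` which is fixed by `Γ` (`Rey`).  We prove that `M` is Kimura
   finite in `D` if and only if it is Kimura finite by idempotents fixed by `Γ`, with the same
   `a, b`.

Application of 1.  Let `D` be the orbit category of the category of Chow motives with rational
coefficients over a field `k` with respect to the Tate object, `Hom(A,B) = ⊕_j Hom(A,B(j))`; its
part of degree `0` is the category of Chow motives, and `D` is a full subcategory of the category
`NChow(k)` of noncommutative Chow motives, `h(X)` going to `U(perf_dg X)` (Kontsevich, Tabuada).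
So if `U(perf_dg X)` is Kimura finite then `h(X)` is Kimura finite: the converse of the known
implication.  In particular a positive answer to Q1 implies the conjecture of Kimura and O'Sullivan
for all smooth projective varieties; conversely this conjecture implies Q1 for all dg categories
which are admissible in some `perf_dg X` (known), so that for these `Q1` is equivalent to it.

Application of 2.  `k'/k` finite Galois, `D` with the smooth proper dg categories over `k` as
objects and `Hom(A,B) = K_0((A^op ⊗ B) ⊗ k')` (rational coefficients), `Γ = Gal(k'/k)`: `U(A)` is
Kimura finite if `U(A ⊗ k')` is.  In the same way for finite Galois extensions of the field of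
coefficients (there `Γ` acts semilinearly).

Everything (partial traces, Kimura's theorem on nilpotence, the theorem of Nagata and Higman, the
vanishing of traces between even and odd objects) is proved in Lean.
-/

open CategoryTheory MonoidalCategory

namespace Pool.Agent.Results.MP_6e5bed_ag.OrbitDescent

open Pool.Agent.W544.KF

universe w v u

theorem result (F : Type w) [Field F] [CharZero F] (D : Type u) [Category.{v} D]
    [MonoidalCategory D] [SymmetricCategory D] [Preadditive D] [MonoidalPreadditive D]
    [Linear F D] [MonoidalLinear F D]
    (hF : ∀ f : 𝟙_ D ⟶ 𝟙_ D, ∃ c : F, f = c • 𝟙 (𝟙_ D)) (hne : 𝟙 (𝟙_ D) ≠ 0)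
    (M M' : D) [ExactPairing M M'] (a b : ℕ) :
    (∀ Gr : Grading F D, KDec F M Set.univ a b ↔ KDec F M (Gr.G M M 0) a b) ∧
    (∀ Γ : Set (TAut D), Rey F Γ M →
      (KDec F M Set.univ a b ↔ KDec F M {f | ∀ ψ ∈ Γ, ψ.map f = f} a b)) := by
  refine ⟨fun Gr => ⟨grad_of main F D hF hne M M' Gr a b, ?_⟩,
    fun Γ hΓ => ⟨main F D hF hne M M' Γ hΓ a b, ?_⟩⟩
  · rintro ⟨p, -, q, -, h⟩
    exact ⟨p, Set.mem_univ _, q, Set.mem_univ _, h⟩
  · rintro ⟨p, -, q, -, h⟩
    exact ⟨p, Set.mem_univ _, q, Set.mem_univ _, h⟩

end Pool.Agent.Results.MP_6e5bed_ag.OrbitDescent
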